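import Pool.Agent.Lib.MP_71365f_an.Final
import Pool.Agent.Lib.MP_71365f_an.Residual

/-!
Every number `d` strictly between `0` and `1` is the Hausdorff dimension of `f(K)` for some power
series `f` converging absolutely on `[0,1]` and the typical compact set `K ⊆ [0,1]`.

Here `f(K)` is the set of the sums `∑ a_i x_{i,1} ⋯ x_{i,i}` with all `x_{i,j}` in `K`.

The series.  Put `w = log 2 / d`, `Λ(i) = ∑_{j < i} ⌊log₂ j⌋` and `a_i = exp (-w Λ(i) - t_i)`.  The
indices between `2 ^ p` and `2 ^ (p + 1)` are cut into blocks of length `h = 2 ^ (p - ⌊log₂ p²⌋)`, and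
`t_i = l² / (p h²)` where `l` is the place of `i` in its block.

* Upper bound.  The finite sets of powers of a number `θ < 1` are dense among the compact sets.  Near
  such a set the set of products of `i` elements has at most `i Δ + 1` elements, so that `f(K)` is
  covered by `∏_{i < I} (i Δ + 1) ≤ C ^ I 2 ^ Λ(I)` intervals of length about `exp (-w Λ(I))`, at
  infinitely many scales.  So the typical `K` satisfies `dim f(K) ≤ log 2 / w = d`.
* Lower bound, for every `K` containing `x < y` in `(0,1]`.  Write `y = exp (-α)`,
  `x = exp (-(α + β))`, so that `a_j x ^ k y ^ (j - k) = exp (-(τ_j + α j + β k))` with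
  `τ_j = w Λ(j) + t_j`.  Assign to the indices of a block the positions
  `P_i = w Λ(i) + (α + β / 2) i` of the block, in any order; the index `j` assigned to the position
  `P_i` gets the exponent `k` with `P_i ≤ τ_j + α j + β k < P_i + β`.  The phases `τ_j + α j` modulo
  `β` of the indices of a block have at most `2 h` pairs at distance less than `1 / (p (p + 1) h)`,
  since for a given difference of the indices the difference of the phases is a linear function with
  small nonzero slope; so at most places of the block there are at least `h / (18 p²)` unused indices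
  whose terms at that position are separated, and this separation exceeds all the later terms because
  `w > log 2`.  This gives a tree of elements of `f(K)` with about `2 ^ Λ(i)` branches at the scale
  `exp (-w Λ(i))`, and the dimension is at least `log 2 / w`.
-/

set_option autoImplicit false

open TopologicalSpace Filter Topology
open scoped NNReal ENNReal

namespace Pool.Agent.Results.MP_71365f_an.EveryDimension

open Pool.Agent.Lib.MP_71365f_an

/-- For every `d` in `(0,1)` there is a power series with absolutely summable coefficients `a` such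
that `f(K)`, the set of the sums `∑ a_i x_{i,1} ⋯ x_{i,i}` with `x_{i,j}` in `K`, has Hausdorff
dimension `d` for the typical nonempty compact set `K ⊆ [0,1]`. -/
theorem result (d : ℝ) (hd0 : 0 < d) (hd1 : d < 1) :
    ∃ a : ℕ → ℝ, Summable (fun i => |a i|) ∧
      {K : NonemptyCompacts (Set.Icc (0 : ℝ) 1) |
        dimH (psImage a (Subtype.val '' (K : Set (Set.Icc (0 : ℝ) 1)))) = ENNReal.ofReal d} ∈
        residual (NonemptyCompacts (Set.Icc (0 : ℝ) 1)) := by
  have hl2 : 0 < Real.log 2 := Real.log_pos (by norm_num)
  set w : ℝ := Real.log 2 / d with hw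
  have hwl : Real.log 2 < w := by
    rw [hw, lt_div_iff₀ hd0]
    nlinarith
  have hw0 : 0 < w := hl2.trans hwl
  have hdw : d * w = Real.log 2 := by rw [hw]; field_simp
  refine ⟨coef w, ?_, ?_⟩
  · have : (fun i => |coef w i|) = coef w := by
      funext i; exact abs_of_pos (coef_pos w i)
    rw [this]
    exact summable_coef hw0
  · have hres : ∀ᶠ K in residual (NonemptyCompacts (Set.Icc (0 : ℝ) 1)),
        ∀ n m : ℕ, Good w (d + 1 / ((n : ℝ) + 1)) (1 / ((m : ℝ) + 1)) (toSet K) := by
      rw [eventually_countable_forall]
      intro n
      rw [eventually_countable_forall]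
      intro m
      apply good_mem_residual hw0 _ (by positivity)
      have h1 : (0 : ℝ) < 1 / ((n : ℝ) + 1) := by positivity
      nlinarith
    filter_upwards [hres] with K hK
    apply le_antisymm
    · have h1 : ∀ n : ℕ, dimH (psImage (coef w) (toSet K)) ≤
          ENNReal.ofReal (d + 1 / ((n : ℝ) + 1)) := by
        intro n
        have hn : 0 ≤ d + 1 / ((n : ℝ) + 1) := by positivity
        have h2 := dimH_le_of_good (w := w) (r := (d + 1 / ((n : ℝ) + 1)).toNNReal) (K := toSet K)
          (fun m => by
            rw [Real.coe_toNNReal _ hn]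
            exact hK n m)
        exact h2
      have h2 : Tendsto (fun n : ℕ => ENNReal.ofReal (d + 1 / ((n : ℝ) + 1))) atTop
          (𝓝 (ENNReal.ofReal (d + 0))) :=
        ENNReal.tendsto_ofReal (tendsto_const_nhds.add tendsto_one_div_add_atTop_nhds_zero_nat)
      rw [add_zero] at h2
      exact ge_of_tendsto' h2 h1
    · obtain ⟨x, hx, y, hy, hx0, hxy⟩ := (hK 0 0).2
      apply le_of_forall_lt
      intro c hc
      obtain ⟨r, hr1, hr2⟩ := ENNReal.lt_iff_exists_nnreal_btwn.mp hc
      refine lt_of_lt_of_le hr1 ?_
      have hr0 : 0 < r := by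
        have : (0 : ℝ≥0∞) < r := lt_of_le_of_lt zero_le hr1
        exact_mod_cast this
      have hrd : (r : ℝ) < d := by
        have h3 : (r : ℝ≥0∞) = ENNReal.ofReal (r : ℝ) := by simp
        rw [h3, ENNReal.ofReal_lt_ofReal_iff hd0] at hr2
        exact hr2
      exact le_dimH_psImage hwl r hr0 (by nlinarith) hx hy hx0 hxy (toSet_subset K y hy).2

end Pool.Agent.Results.MP_71365f_an.EveryDimension
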